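import Pool.Agent.Q77.LU.StmH

/-!
# The adjoint representation in coordinates

`AdM B g` is the matrix of the adjoint action of `g` in the basis `B`.
-/

set_option autoImplicit false

namespace Pool.Agent.Q2.LU

open Matrix Pool.Agent.Q77.LU
open scoped Matrix.Norms.Frobenius

noncomputable section

variable {N n : ℕ} {G : Subgroup (UU N)}

theorem mt_mul (g h : G) : mt (g * h) = mt g * mt h := rfl

theorem mt_one : mt (1 : G) = 1 := rfl

theorem mt_mul_star (g : G) : mt g * (mt g)ᴴ = 1 := by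
  have := (Unitary.mem_iff.mp (g : UU N).2).2
  simpa [Pool.Agent.Q77.LU.mt, Matrix.star_eq_conjTranspose] using this

theorem star_mul_mt (g : G) : (mt g)ᴴ * mt g = 1 := by
  have := (Unitary.mem_iff.mp (g : UU N).2).1
  simpa [Pool.Agent.Q77.LU.mt, Matrix.star_eq_conjTranspose] using this

theorem mt_inv (g : G) : mt g⁻¹ = (mt g)ᴴ := by
  have h1 : mt g⁻¹ * mt g = 1 := by rw [← mt_mul, inv_mul_cancel, mt_one]
  calc mt g⁻¹ = mt g⁻¹ * (mt g * (mt g)ᴴ) := by rw [mt_mul_star, mul_one]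
    _ = (mt g)ᴴ := by rw [← mul_assoc, h1, one_mul]

/-- the matrix of the adjoint action -/
def AdM (B : LieBasis G n) (g : G) : Matrix (Fin n) (Fin n) ℝ :=
  fun a b => (trace ((B.X a)ᴴ * (mt g * B.X b * (mt g)ᴴ))).re

theorem exp_conj_mt (g : G) (Y : Mt N) :
    NormedSpace.exp (mt g * Y * (mt g)ᴴ) = mt g * NormedSpace.exp Y * (mt g)ᴴ := by
  have hinv : (mt g)⁻¹ = (mt g)ᴴ := Matrix.inv_eq_right_inv (mt_mul_star g)
  have hu : IsUnit (mt g) := by
    rw [Matrix.isUnit_iff_isUnit_det]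
    exact Matrix.isUnit_det_of_left_inverse (star_mul_mt g)
  rw [← hinv]
  exact Matrix.exp_conj (mt g) Y hu

theorem conj_mem (B : LieBasis G n) (g : G) (b : Fin n) :
    mt g * B.X b * (mt g)ᴴ ∈ Submodule.span ℝ (Set.range B.X) := by
  apply B.full
  intro t
  refine ⟨g * B.ex b t * g⁻¹, ?_⟩
  rw [mt_mul, mt_mul, mt_inv, B.ex_eq, ← exp_conj_mt]
  congr 1
  rw [Matrix.mul_smul, Matrix.smul_mul]

/-- expansion in the basis -/
theorem expand (B : LieBasis G n) {Y : Mt N} (hY : Y ∈ Submodule.span ℝ (Set.range B.X)) :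
    Y = ∑ a, (trace ((B.X a)ᴴ * Y)).re • B.X a := by
  obtain ⟨c, rfl⟩ := (Submodule.mem_span_range_iff_exists_fun ℝ).mp hY
  have : ∀ a, (trace ((B.X a)ᴴ * ∑ i, c i • B.X i)).re = c a := by
    intro a
    rw [Finset.mul_sum, Matrix.trace_sum, Complex.re_sum]
    rw [Finset.sum_eq_single a]
    · rw [Matrix.mul_smul, Matrix.trace_smul, Complex.smul_re, B.orth, if_pos rfl, smul_eq_mul,
        mul_one]
    · intro b _ hb
      rw [Matrix.mul_smul, Matrix.trace_smul, Complex.smul_re, B.orth, if_neg (Ne.symm hb),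
        smul_zero]
    · intro h
      exact absurd (Finset.mem_univ a) h
  simp_rw [this]

theorem conj_expand (B : LieBasis G n) (g : G) (b : Fin n) :
    mt g * B.X b * (mt g)ᴴ = ∑ a, AdM B g a b • B.X a := expand B (conj_mem B g b)

theorem AdM_one (B : LieBasis G n) : AdM B 1 = 1 := by
  ext a b
  rw [AdM, mt_one, Matrix.one_mul, Matrix.conjTranspose_one, Matrix.mul_one, B.orth,
    Matrix.one_apply]

theorem AdM_mul (B : LieBasis G n) (g h : G) : AdM B (g * h) = AdM B g * AdM B h := by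
  ext a b
  have h1 : mt (g * h) * B.X b * (mt (g * h))ᴴ =
      ∑ c, AdM B h c b • (mt g * B.X c * (mt g)ᴴ) := by
    rw [mt_mul, Matrix.conjTranspose_mul]
    calc mt g * mt h * B.X b * ((mt h)ᴴ * (mt g)ᴴ) =
        mt g * (mt h * B.X b * (mt h)ᴴ) * (mt g)ᴴ := by simp only [Matrix.mul_assoc]
      _ = _ := by
        rw [conj_expand, Finset.mul_sum, Finset.sum_mul]
        refine Finset.sum_congr rfl fun c _ => ?_
        rw [Matrix.mul_smul, Matrix.smul_mul]
  show (trace ((B.X a)ᴴ * (mt (g * h) * B.X b * (mt (g * h))ᴴ))).re = _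
  rw [h1, Finset.mul_sum, Matrix.trace_sum, Complex.re_sum, Matrix.mul_apply]
  refine Finset.sum_congr rfl fun c _ => ?_
  rw [Matrix.mul_smul, Matrix.trace_smul, Complex.smul_re, smul_eq_mul, mul_comm]
  rfl

theorem AdM_transpose (B : LieBasis G n) (g : G) : (AdM B g)ᵀ = AdM B g⁻¹ := by
  ext a b
  show (trace ((B.X b)ᴴ * (mt g * B.X a * (mt g)ᴴ))).re =
    (trace ((B.X a)ᴴ * (mt g⁻¹ * B.X b * (mt g⁻¹)ᴴ))).re
  have h1 : (trace ((B.X b)ᴴ * (mt g * B.X a * (mt g)ᴴ))).re =
      (trace ((B.X b)ᴴ * (mt g * B.X a * (mt g)ᴴ))ᴴ).re := by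
    rw [Matrix.trace_conjTranspose]; simp
  rw [h1, mt_inv, Matrix.conjTranspose_conjTranspose]
  congr 1
  rw [Matrix.conjTranspose_mul, Matrix.conjTranspose_mul, Matrix.conjTranspose_mul,
    Matrix.conjTranspose_conjTranspose, Matrix.conjTranspose_conjTranspose]
  calc trace (mt g * ((B.X a)ᴴ * (mt g)ᴴ) * B.X b) =
      trace (mt g * ((B.X a)ᴴ * (mt g)ᴴ * B.X b)) := by simp only [Matrix.mul_assoc]
    _ = trace ((B.X a)ᴴ * (mt g)ᴴ * B.X b * mt g) := Matrix.trace_mul_comm _ _
    _ = _ := by simp only [Matrix.mul_assoc]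

theorem AdM_orth (B : LieBasis G n) (g : G) : AdM B g * (AdM B g)ᵀ = 1 := by
  rw [AdM_transpose, ← AdM_mul, mul_inv_cancel, AdM_one]

theorem AdM_orth' (B : LieBasis G n) (g : G) : (AdM B g)ᵀ * AdM B g = 1 := by
  rw [AdM_transpose, ← AdM_mul, inv_mul_cancel, AdM_one]

/-- the distance of an orthogonal matrix from the identity -/
theorem orth_dist {O : Matrix (Fin n) (Fin n) ℝ} (h : O * Oᵀ = 1) :
    ∑ a, ∑ b, ((O - 1) a b) ^ 2 = 2 * n - 2 * trace O := by
  have h1 : ∑ a, ∑ b, ((O - 1) a b) ^ 2 = trace ((O - 1) * (O - 1)ᵀ) := by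
    rw [Matrix.trace]
    refine Finset.sum_congr rfl fun a _ => ?_
    rw [Matrix.diag_apply, Matrix.mul_apply]
    refine Finset.sum_congr rfl fun b _ => ?_
    rw [Matrix.transpose_apply]; ring
  rw [h1, Matrix.transpose_sub, Matrix.transpose_one]
  have h2 : (O - 1) * (Oᵀ - 1) = O * Oᵀ - O - Oᵀ + 1 := by noncomm_ring
  rw [h2, h, Matrix.trace_add, Matrix.trace_sub, Matrix.trace_sub, Matrix.trace_transpose,
    Matrix.trace_one, Fintype.card_fin]
  ring

theorem trace_le {O : Matrix (Fin n) (Fin n) ℝ} (h : O * Oᵀ = 1) : trace O ≤ n := by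
  have h1 := orth_dist h
  have h2 : 0 ≤ ∑ a, ∑ b, ((O - 1) a b) ^ 2 :=
    Finset.sum_nonneg fun a _ => Finset.sum_nonneg fun b _ => sq_nonneg _
  linarith

theorem trace_lt {O : Matrix (Fin n) (Fin n) ℝ} (h : O * Oᵀ = 1) (h' : O ≠ 1) : trace O < n := by
  refine lt_of_le_of_ne (trace_le h) fun heq => h' ?_
  have h1 := orth_dist h
  rw [heq] at h1
  have h2 : ∑ a, ∑ b, ((O - 1) a b) ^ 2 = 0 := by rw [h1]; ring
  have h2' := (Finset.sum_eq_zero_iff_of_nonneg
    (fun a _ => Finset.sum_nonneg fun b _ => sq_nonneg ((O - 1) a b))).mp h2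
  rw [← sub_eq_zero]
  ext a b
  have h3 := h2' a (Finset.mem_univ a)
  have h4 := (Finset.sum_eq_zero_iff_of_nonneg (fun b _ => sq_nonneg ((O - 1) a b))).mp h3 b
    (Finset.mem_univ b)
  exact pow_eq_zero_iff (two_ne_zero) |>.mp h4

theorem AdM_eq_one (B : LieBasis G n) (g : G) (h : AdM B g = 1) (a : Fin n) :
    mt g * B.X a * (mt g)ᴴ = B.X a := by
  rw [conj_expand, h]
  rw [Finset.sum_eq_single a]
  · rw [Matrix.one_apply_eq, one_smul]
  · intro b _ hb
    rw [Matrix.one_apply_ne hb, zero_smul]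
  · intro h
    exact absurd (Finset.mem_univ a) h

/-! ### the covariant translations -/

variable {D l : ℕ}

theorem cov_apply (B : LieBasis G n) (U : Link D l → G) (i : Fin D)
    (x y : Fin D → ZMod l) (a b : Fin n) :
    cov B U i (x, a) (y, b) = if y = x + unitv i then AdM B (U (x, i)) a b else 0 := rfl

theorem cov_orth [NeZero l] (B : LieBasis G n) (U : Link D l → G) (i : Fin D) :
    cov B U i * (cov B U i)ᵀ = 1 := by
  ext ⟨x, a⟩ ⟨y, b⟩
  rw [Matrix.mul_apply, Fintype.sum_prod_type]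
  simp only [Matrix.transpose_apply, cov_apply]
  rw [Finset.sum_eq_single (x + unitv i)]
  · by_cases hxy : x = y
    · subst hxy
      simp only [if_true]
      have := congrFun (congrFun (AdM_orth B (U (x, i))) a) b
      rw [Matrix.mul_apply] at this
      simp only [Matrix.transpose_apply] at this
      rw [this, Matrix.one_apply, Matrix.one_apply]
      simp
    · have h1 : ¬ x + unitv i = y + unitv i := fun h => hxy (add_right_cancel h)
      simp only [h1, if_false, mul_zero, Finset.sum_const_zero]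
      rw [Matrix.one_apply_ne]
      intro h
      exact hxy (Prod.ext_iff.mp h).1
  · intro z _ hz
    simp only [hz, if_false, zero_mul, Finset.sum_const_zero]
  · intro h
    exact absurd (Finset.mem_univ _) h

theorem cov_orth' [NeZero l] (B : LieBasis G n) (U : Link D l → G) (i : Fin D) :
    (cov B U i)ᵀ * cov B U i = 1 := mul_eq_one_comm.mp (cov_orth B U i)

theorem lapU_eq [NeZero l] (B : LieBasis G n) (U : Link D l → G) :
    lapU B U = ∑ i, (2 • (1 : Matrix ((Fin D → ZMod l) × Fin n) ((Fin D → ZMod l) × Fin n) ℝ) -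
      cov B U i - (cov B U i)ᵀ) := by
  rw [lapU]
  refine Finset.sum_congr rfl fun i _ => ?_
  rw [Matrix.transpose_sub, Matrix.transpose_one]
  have : ((cov B U i)ᵀ - 1) * (cov B U i - 1) =
      (cov B U i)ᵀ * cov B U i - cov B U i - (cov B U i)ᵀ + 1 := by noncomm_ring
  rw [this, cov_orth', two_smul]
  abel

theorem lapU_symm [NeZero l] (B : LieBasis G n) (U : Link D l → G) :
    (lapU B U)ᵀ = lapU B U := by
  rw [lapU, Matrix.transpose_sum]
  refine Finset.sum_congr rfl fun i _ => ?_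
  rw [Matrix.transpose_mul, Matrix.transpose_transpose]

theorem magnetic_one [NeZero l] : magnetic (fun _ : Link D l => (1 : G)) = 0 := by
  unfold magnetic
  refine Finset.sum_eq_zero fun x _ => Finset.sum_eq_zero fun i _ =>
    Finset.sum_eq_zero fun j _ => ?_
  have : plaq (fun _ : Link D l => (1 : G)) x i j = 1 := by simp [plaq]
  rw [this, mt_one]
  simp

end

end Pool.Agent.Q2.LU
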