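import Pool.Agent.Q2.LU.Adj

/-!
# Hodge theory at flat configurations

`t_HODGE`: `tsq (hess B U) = (D - 1) * tsq (lapU B U)` for flat `U`.
-/

set_option autoImplicit false

namespace Pool.Agent.Q2.LU

open Matrix Pool.Agent.Q77.LU
open scoped Matrix.Norms.Frobenius

noncomputable section

/-! ### moments -/

/-- equal moments give equal sums of all functions which vanish at `0` -/
theorem moments {ι κ : Type} [Fintype ι] [Fintype κ] (a : ι → ℝ) (b : κ → ℝ) (d : ℝ)
    (h : ∀ k : ℕ, 1 ≤ k → ∑ i, a i ^ k = d * ∑ j, b j ^ k) (f : ℝ → ℝ) (hf : f 0 = 0) :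
    ∑ i, f (a i) = d * ∑ j, f (b j) := by
  classical
  obtain ⟨s, hs⟩ : ∃ s : Finset ℝ, s = insert 0 (Finset.univ.image a ∪ Finset.univ.image b) :=
    ⟨_, rfl⟩
  obtain ⟨p, hp⟩ : ∃ p : Polynomial ℝ, p = Lagrange.interpolate s id f := ⟨_, rfl⟩
  have hev : ∀ x ∈ s, p.eval x = f x := by
    intro x hx
    rw [hp]
    exact Lagrange.eval_interpolate_at_node f (Function.injective_id.injOn) hx
  have h0 : p.coeff 0 = 0 := by
    rw [Polynomial.coeff_zero_eq_eval_zero, hev 0 (by rw [hs]; simp), hf]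
  have ha : ∀ i, f (a i) = ∑ k ∈ Finset.range (p.natDegree + 1), p.coeff k * a i ^ k := by
    intro i
    rw [← hev (a i) (by rw [hs]; simp), Polynomial.eval_eq_sum_range]
  have hb : ∀ j, f (b j) = ∑ k ∈ Finset.range (p.natDegree + 1), p.coeff k * b j ^ k := by
    intro j
    rw [← hev (b j) (by rw [hs]; simp), Polynomial.eval_eq_sum_range]
  simp_rw [ha, hb]
  rw [Finset.sum_comm, Finset.sum_comm (s := (Finset.univ : Finset κ)), Finset.mul_sum]
  refine Finset.sum_congr rfl fun k _ => ?_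
  rcases Nat.eq_zero_or_pos k with hk | hk
  · subst hk
    simp [h0]
  · rw [← Finset.mul_sum, ← Finset.mul_sum, h k hk]
    ring

theorem trace_pow_eig {ι : Type} [Fintype ι] [DecidableEq ι] {A : Matrix ι ι ℝ}
    (hA : A.IsHermitian) (k : ℕ) : trace (A ^ k) = ∑ i, hA.eigenvalues i ^ k := by
  have h1 := hA.spectral_theorem
  obtain ⟨V, hV⟩ : ∃ V : Matrix ι ι ℝ, V = (hA.eigenvectorUnitary : Matrix ι ι ℝ) := ⟨_, rfl⟩
  have h3 : star V * V = 1 := by
    rw [hV]; exact Unitary.coe_star_mul_self hA.eigenvectorUnitary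
  have h2 : A = V * diagonal hA.eigenvalues * star V := by
    rw [hV]
    conv_lhs => rw [h1]
    rfl
  have h4 : ∀ m : ℕ, A ^ m = V * (diagonal hA.eigenvalues) ^ m * star V := by
    intro m
    induction m with
    | zero =>
      rw [pow_zero, pow_zero, mul_one]
      exact (mul_eq_one_comm.mp h3).symm
    | succ m ih =>
      calc A ^ (m + 1) = A ^ m * A := pow_succ A m
        _ = V * diagonal hA.eigenvalues ^ m * star V * (V * diagonal hA.eigenvalues * star V) := by
            rw [ih, ← h2]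
        _ = V * diagonal hA.eigenvalues ^ m * (star V * V) * diagonal hA.eigenvalues * star V := by
            simp only [mul_assoc]
        _ = _ := by rw [h3, mul_one, pow_succ]; simp only [mul_assoc]
  rw [h4, Matrix.trace_mul_comm, ← mul_assoc, h3, one_mul, Matrix.diagonal_pow,
    Matrix.trace_diagonal]
  rfl

/-- `tsq` from moments -/
theorem tsq_moments {ι κ : Type} [Fintype ι] [DecidableEq ι] [Fintype κ] {A : Matrix ι ι ℝ}
    (hA : A.IsHermitian) (b : κ → ℝ) (d : ℝ)
    (h : ∀ k : ℕ, 1 ≤ k → trace (A ^ k) = d * ∑ j, b j ^ k) :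
    tsq A = d * ∑ j, Real.sqrt (b j) := by
  rw [tsq, dif_pos hA]
  refine moments hA.eigenvalues b d (fun k hk => ?_) Real.sqrt Real.sqrt_zero
  rw [← h k hk, trace_pow_eig hA]

theorem tsq_moments' {ι κ : Type} [Fintype ι] [DecidableEq ι] [Fintype κ] [DecidableEq κ]
    {A : Matrix ι ι ℝ} {L : Matrix κ κ ℝ} (hA : A.IsHermitian) (hL : L.IsHermitian) (d : ℝ)
    (h : ∀ k : ℕ, 1 ≤ k → trace (A ^ k) = d * trace (L ^ k)) : tsq A = d * tsq L := by
  rw [tsq_moments hA hL.eigenvalues d (fun k hk => by rw [h k hk, trace_pow_eig hL]), tsq,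
    dif_pos hL]

/-! ### the Hodge decomposition -/

theorem mul_pow_succ' {ι κ : Type} [Fintype ι] [DecidableEq ι] [Fintype κ] [DecidableEq κ]
    (X : Matrix ι κ ℝ) (Y : Matrix κ ι ℝ) (k : ℕ) : (X * Y) ^ (k + 1) = X * (Y * X) ^ k * Y := by
  induction k with
  | zero => rw [zero_add, pow_one, pow_zero, Matrix.mul_one]
  | succ k ih => rw [pow_succ, ih, pow_succ]; simp only [Matrix.mul_assoc]

theorem trace_mul_pow {ι κ : Type} [Fintype ι] [DecidableEq ι] [Fintype κ] [DecidableEq κ]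
    (X : Matrix ι κ ℝ) (Y : Matrix κ ι ℝ) (k : ℕ) (hk : 1 ≤ k) :
    trace ((X * Y) ^ k) = trace ((Y * X) ^ k) := by
  obtain ⟨m, rfl⟩ : ∃ m, k = m + 1 := ⟨k - 1, by omega⟩
  rw [mul_pow_succ', Matrix.trace_mul_comm, ← Matrix.mul_assoc, ← pow_succ']

section

variable {N n D l : ℕ} {G : Subgroup (UU N)} [NeZero l]

/-- the covariant gradient -/
def grad (B : LieBasis G n) (U : Link D l → G) :
    Matrix (Link D l × Fin n) ((Fin D → ZMod l) × Fin n) ℝ :=
  fun p t => (cov B U p.1.2 - 1) (p.1.1, p.2) t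

/-- the Laplacian on fields -/
def lapF (L : Matrix ((Fin D → ZMod l) × Fin n) ((Fin D → ZMod l) × Fin n) ℝ) :
    Matrix (Link D l × Fin n) (Link D l × Fin n) ℝ :=
  fun p q => if p.1.2 = q.1.2 then L (p.1.1, p.2) (q.1.1, q.2) else 0

theorem sum_link (f : Link D l × Fin n → ℝ) :
    ∑ p, f p = ∑ i : Fin D, ∑ s : (Fin D → ZMod l) × Fin n, f ((s.1, i), s.2) := by
  rw [Fintype.sum_prod_type, Fintype.sum_prod_type, Finset.sum_comm]
  refine Finset.sum_congr rfl fun i _ => ?_
  rw [Fintype.sum_prod_type]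

theorem grad_tr_grad (B : LieBasis G n) (U : Link D l → G) :
    (grad B U)ᵀ * grad B U = lapU B U := by
  ext s t
  rw [Matrix.mul_apply, sum_link, lapU, Matrix.sum_apply]
  refine Finset.sum_congr rfl fun i _ => ?_
  rw [Matrix.mul_apply]
  rfl

omit [NeZero l] in
theorem lapF_one : lapF (D := D) (l := l) (n := n) 1 = 1 := by
  ext ⟨⟨x, i⟩, a⟩ ⟨⟨y, j⟩, b⟩
  simp only [lapF, Matrix.one_apply, Prod.mk.injEq]
  by_cases h1 : i = j <;> by_cases h2 : x = y <;> by_cases h3 : a = b <;> simp [h1, h2, h3]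

theorem lapF_mul (L M : Matrix ((Fin D → ZMod l) × Fin n) ((Fin D → ZMod l) × Fin n) ℝ) :
    lapF L * lapF M = lapF (L * M) := by
  ext p q
  rw [Matrix.mul_apply, sum_link]
  simp only [lapF]
  rw [Finset.sum_eq_single p.1.2]
  · by_cases h : p.1.2 = q.1.2
    · simp only [h, if_true]
      rw [Matrix.mul_apply]
    · simp only [h, if_false, if_true, mul_zero, Finset.sum_const_zero]
  · intro i _ hi
    refine Finset.sum_eq_zero fun s _ => ?_
    rw [if_neg (Ne.symm hi), zero_mul]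
  · intro h
    exact absurd (Finset.mem_univ _) h

theorem lapF_pow (L : Matrix ((Fin D → ZMod l) × Fin n) ((Fin D → ZMod l) × Fin n) ℝ) (k : ℕ) :
    (lapF L) ^ k = lapF (L ^ k) := by
  induction k with
  | zero => rw [pow_zero, pow_zero, lapF_one]
  | succ k ih => rw [pow_succ, ih, lapF_mul, pow_succ]

theorem trace_lapF (L : Matrix ((Fin D → ZMod l) × Fin n) ((Fin D → ZMod l) × Fin n) ℝ) :
    trace (lapF L) = D * trace L := by
  rw [Matrix.trace, sum_link]
  simp only [Matrix.diag_apply, lapF, if_true]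
  rw [Finset.sum_const, Finset.card_univ, Fintype.card_fin, nsmul_eq_mul]
  rfl

theorem lapF_grad (B : LieBasis G n) (U : Link D l → G)
    (hc : ∀ i j, cov B U i * cov B U j = cov B U j * cov B U i) :
    lapF (lapU B U) * grad B U = grad B U * lapU B U := by
  have hct : ∀ i j, (cov B U i)ᵀ * cov B U j = cov B U j * (cov B U i)ᵀ := by
    intro i j
    calc (cov B U i)ᵀ * cov B U j = (cov B U i)ᵀ * cov B U j * (cov B U i * (cov B U i)ᵀ) := by
          rw [cov_orth, mul_one]
      _ = (cov B U i)ᵀ * (cov B U j * cov B U i) * (cov B U i)ᵀ := by simp only [mul_assoc]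
      _ = (cov B U i)ᵀ * (cov B U i * cov B U j) * (cov B U i)ᵀ := by rw [hc j i]
      _ = ((cov B U i)ᵀ * cov B U i) * cov B U j * (cov B U i)ᵀ := by simp only [mul_assoc]
      _ = _ := by rw [cov_orth', one_mul]
  have hcom : ∀ i, lapU B U * (cov B U i - 1) = (cov B U i - 1) * lapU B U := by
    intro i
    rw [lapU_eq, Finset.sum_mul, Finset.mul_sum]
    refine Finset.sum_congr rfl fun j _ => ?_
    have e1 : (2 • (1 : Matrix ((Fin D → ZMod l) × Fin n) ((Fin D → ZMod l) × Fin n) ℝ) -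
        cov B U j - (cov B U j)ᵀ) * (cov B U i - 1) = 2 • (cov B U i - 1) -
        (cov B U j * cov B U i - cov B U j) - ((cov B U j)ᵀ * cov B U i - (cov B U j)ᵀ) := by
      noncomm_ring
    have e2 : (cov B U i - 1) *
        (2 • (1 : Matrix ((Fin D → ZMod l) × Fin n) ((Fin D → ZMod l) × Fin n) ℝ) -
        cov B U j - (cov B U j)ᵀ) = 2 • (cov B U i - 1) -
        (cov B U i * cov B U j - cov B U j) - (cov B U i * (cov B U j)ᵀ - (cov B U j)ᵀ) := by
      noncomm_ring
    rw [e1, e2, hc j i, hct j i]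
  ext ⟨⟨x, i⟩, a⟩ t
  rw [Matrix.mul_apply, Matrix.mul_apply, sum_link, Finset.sum_eq_single i]
  · have h1 := congrFun (congrFun (hcom i) (x, a)) t
    rw [Matrix.mul_apply, Matrix.mul_apply] at h1
    simp only [lapF, if_true]
    exact h1
  · intro j _ hj
    refine Finset.sum_eq_zero fun s _ => ?_
    simp only [lapF]
    rw [if_neg (Ne.symm hj), zero_mul]
  · intro h
    exact absurd (Finset.mem_univ _) h

/-- **Hodge theory** at flat configurations -/
theorem hodge_gen (B : LieBasis G n) (U : Link D l → G)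
    (hc : ∀ i j, cov B U i * cov B U j = cov B U j * cov B U i)
    (hh : ∀ (x y : Fin D → ZMod l) (i j : Fin D) (a b : Fin n),
      hess B U ((x, i), a) ((y, j), b) = (if i = j then lapU B U (x, a) (y, b) else 0) -
      ((cov B U i - 1) * (cov B U j - 1)ᵀ : Matrix ((Fin D → ZMod l) × Fin n)
        ((Fin D → ZMod l) × Fin n) ℝ) (x, a) (y, b)) :
    tsq (hess B U) = ((D : ℝ) - 1) * tsq (lapU B U) := by
  obtain ⟨E, hE⟩ : ∃ E, E = grad B U := ⟨_, rfl⟩
  obtain ⟨F, hF⟩ : ∃ F, F = lapF (lapU B U) := ⟨_, rfl⟩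
  have hH : hess B U = F - E * Eᵀ := by
    ext ⟨⟨x, i⟩, a⟩ ⟨⟨y, j⟩, b⟩
    rw [hh, Matrix.sub_apply, hF, hE, Matrix.mul_apply, Matrix.mul_apply]
    rfl
  have hEE : Eᵀ * E = lapU B U := by rw [hE]; exact grad_tr_grad B U
  have hFE : F * E = E * lapU B U := by rw [hF, hE]; exact lapF_grad B U hc
  have hFt : Fᵀ = F := by
    rw [hF]
    ext p q
    simp only [Matrix.transpose_apply, lapF]
    by_cases h : p.1.2 = q.1.2
    · rw [if_pos h, if_pos h.symm]
      exact congrFun (congrFun (lapU_symm B U) (p.1.1, p.2)) (q.1.1, q.2)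
    · rw [if_neg h, if_neg (Ne.symm h)]
  obtain ⟨P, hP⟩ : ∃ P, P = E * Eᵀ := ⟨_, rfl⟩
  have hPt : Pᵀ = P := by rw [hP, Matrix.transpose_mul, Matrix.transpose_transpose]
  have hFP : F * P = P * P := by
    rw [hP, ← Matrix.mul_assoc, hFE, ← hEE]
    simp only [Matrix.mul_assoc]
  have hPF : P * F = P * P := by
    have := congrArg Matrix.transpose hFP
    rwa [Matrix.transpose_mul, Matrix.transpose_mul, hPt, hFt] at this
  rw [← hP] at hH
  have hpow : ∀ k : ℕ, (hess B U) ^ (k + 1) = F ^ (k + 1) - P ^ (k + 1) := by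
    intro k
    have hPk : ∀ m : ℕ, F ^ m * P = P ^ m * P := by
      intro m
      induction m with
      | zero => rfl
      | succ m ih =>
        rw [pow_succ, Matrix.mul_assoc, hFP, ← Matrix.mul_assoc, ih, pow_succ, Matrix.mul_assoc]
    have hPk' : ∀ m : ℕ, P ^ (m + 1) * F = P ^ (m + 1) * P := by
      intro m
      rw [pow_succ, Matrix.mul_assoc, hPF, ← Matrix.mul_assoc]
    induction k with
    | zero => rw [zero_add, pow_one, pow_one, pow_one, hH]
    | succ k ih =>
      rw [pow_succ, ih, hH, Matrix.sub_mul, Matrix.mul_sub, Matrix.mul_sub, hPk (k + 1), hPk' k,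
        ← pow_succ, ← pow_succ]
      abel
  have hherm : (hess B U).IsHermitian := by
    rw [Matrix.IsHermitian, Matrix.conjTranspose_eq_transpose_of_trivial, hH,
      Matrix.transpose_sub, hFt, hPt]
  have hLherm : (lapU B U).IsHermitian := by
    rw [Matrix.IsHermitian, Matrix.conjTranspose_eq_transpose_of_trivial, lapU_symm]
  refine tsq_moments' hherm hLherm _ fun k hk => ?_
  obtain ⟨m, rfl⟩ : ∃ m, k = m + 1 := ⟨k - 1, by omega⟩
  rw [hpow, Matrix.trace_sub, hF, lapF_pow, trace_lapF, hP, trace_mul_pow E Eᵀ (m + 1) hk, hEE]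
  ring

end

theorem t_HODGE (h : S_HESSF) : S_HODGE := by
  intro N n D l _ G hG B U hU
  obtain ⟨_, h2, h3⟩ := h N n D l G hG B U hU
  exact hodge_gen B U h2 h3

end

end Pool.Agent.Q2.LU
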