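import Pool.Agent.Q2.LU.Walk
import Pool.Agent.Q2.LU.Hodge

/-!
# The zero point energy

`t_EZ`: the zero point energy at the trivial configuration; `t_FLATS`: it is smaller than at other
flat configurations.
-/

set_option autoImplicit false

namespace Pool.Agent.Q2.LU

open Matrix Pool.Agent.Q77.LU
open scoped Matrix.Norms.Frobenius

noncomputable section

variable {N n D l : ℕ} [NeZero l] {G : Subgroup (UU N)}

/-- plane waves -/
def wF (D l : ℕ) [NeZero l] : Matrix (Fin D → ZMod l) (Fin D → ZMod l) ℂ :=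
  fun x k => ZMod.stdAddChar (∑ i, k i * x i)

/-- the inverse -/
def wG (D l : ℕ) [NeZero l] : Matrix (Fin D → ZMod l) (Fin D → ZMod l) ℂ :=
  fun k x => ((l : ℂ) ^ D)⁻¹ * ZMod.stdAddChar (∑ i, k i * (-x i))

theorem ad_sum (s : Finset (Fin D)) (f : Fin D → ZMod l) :
    (ZMod.stdAddChar (∑ i ∈ s, f i) : ℂ) = ∏ i ∈ s, (ZMod.stdAddChar (f i) : ℂ) := by
  induction s using Finset.induction_on with
  | empty => simp
  | insert i s hi ih =>
    rw [Finset.sum_insert hi, Finset.prod_insert hi, AddChar.map_add_eq_mul, ih]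

theorem wF_wG : wF D l * wG D l = 1 := by
  ext x y
  rw [Matrix.mul_apply]
  have hl : (l : ℂ) ≠ 0 := by exact_mod_cast (NeZero.ne l)
  have h1 : ∀ k : Fin D → ZMod l, wF D l x k * wG D l k y =
      ((l : ℂ) ^ D)⁻¹ * ∏ i, (ZMod.stdAddChar (k i * (x i - y i)) : ℂ) := by
    intro k
    rw [wF, wG, mul_left_comm, ← AddChar.map_add_eq_mul, ← Finset.sum_add_distrib,
      ← ad_sum]
    congr 2
    exact Finset.sum_congr rfl fun i _ => by ring
  rw [Finset.sum_congr rfl fun k _ => h1 k, ← Finset.mul_sum]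
  have h2 : ∑ k : Fin D → ZMod l, ∏ i, (ZMod.stdAddChar (k i * (x i - y i)) : ℂ) =
      ∏ i, ∑ c : ZMod l, (ZMod.stdAddChar (c * (x i - y i)) : ℂ) := by
    rw [Finset.prod_univ_sum, Fintype.piFinset_univ]
  rw [h2]
  have h3 : ∀ i, ∑ c : ZMod l, (ZMod.stdAddChar (c * (x i - y i)) : ℂ) =
      if x i = y i then (l : ℂ) else 0 := by
    intro i
    rw [AddChar.sum_mulShift _ (ZMod.isPrimitive_stdAddChar l)]
    by_cases h : x i = y i
    · rw [if_pos h, if_pos (by rw [h, sub_self]), ZMod.card]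
    · rw [if_neg h, if_neg (sub_ne_zero.mpr h), Nat.cast_zero]
  rw [Finset.prod_congr rfl fun i _ => h3 i]
  by_cases hxy : x = y
  · subst hxy
    simp only [if_true]
    rw [Finset.prod_const, Finset.card_univ, Fintype.card_fin, Matrix.one_apply_eq,
      inv_mul_cancel₀ (pow_ne_zero D hl)]
  · rw [Matrix.one_apply_ne hxy]
    obtain ⟨i, hi⟩ : ∃ i, x i ≠ y i := by
      by_contra h
      push Not at h
      exact hxy (funext h)
    rw [Finset.prod_eq_zero (Finset.mem_univ i) (if_neg hi), mul_zero]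

theorem wG_wF : wG D l * wF D l = 1 := mul_eq_one_comm.mp wF_wG

/-- eigenvalues -/
def om2 (D l : ℕ) [NeZero l] (k : Fin D → ZMod l) : ℝ :=
  ∑ i, 4 * Real.sin (Real.pi * ((k i).val : ℝ) / l) ^ 2

theorem char_sum (c : ZMod l) : (2 : ℂ) - ((ZMod.stdAddChar c : ℂ) + ZMod.stdAddChar (-c)) =
    ((4 * Real.sin (Real.pi * (c.val : ℝ) / l) ^ 2 : ℝ) : ℂ) := by
  obtain ⟨t, ht⟩ : ∃ t : ℝ, t = Real.pi * (c.val : ℝ) / l := ⟨_, rfl⟩
  have h1 : (ZMod.stdAddChar c : ℂ) = Complex.exp ((2 * t : ℝ) * Complex.I) := by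
    rw [ZMod.stdAddChar_apply, ZMod.toCircle_apply, ht]
    congr 1
    push_cast
    ring
  have h2 : (ZMod.stdAddChar (-c) : ℂ) = Complex.exp (-((2 * t : ℝ) * Complex.I)) := by
    rw [AddChar.map_neg_eq_inv, h1, Complex.exp_neg]
  rw [h1, h2, ← ht]
  have h3 : Complex.exp ((2 * t : ℝ) * Complex.I) + Complex.exp (-((2 * t : ℝ) * Complex.I)) =
      2 * Complex.cos ((2 * t : ℝ) : ℂ) := by
    rw [Complex.cos]
    ring_nf
  rw [h3, ← Complex.ofReal_cos, Real.cos_two_mul, Real.cos_sq']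
  push_cast
  ring

theorem sT_map (i : Fin D) (k x : Fin D → ZMod l) :
    ∑ y, ((sT D l i x y : ℝ) : ℂ) * wF D l y k = ZMod.stdAddChar (k i) * wF D l x k := by
  rw [Finset.sum_eq_single (x + unitv i)]
  · rw [sT, if_pos rfl, Complex.ofReal_one, one_mul, wF, wF, ← AddChar.map_add_eq_mul]
    congr 1
    have : ∀ j, k j * (x + unitv i : Fin D → ZMod l) j = k j * x j + if j = i then k i else 0 := by
      intro j
      rw [Pi.add_apply, mul_add]
      congr 1
      by_cases h : j = i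
      · subst h
        simp [unitv]
      · simp [unitv, h]
    rw [Finset.sum_congr rfl fun j _ => this j, Finset.sum_add_distrib, Finset.sum_ite_eq',
      if_pos (Finset.mem_univ i), add_comm]
  · intro y _ hy
    rw [sT, if_neg hy, Complex.ofReal_zero, zero_mul]
  · intro h
    exact absurd (Finset.mem_univ _) h

theorem sT_map' (i : Fin D) (k x : Fin D → ZMod l) :
    ∑ y, (((sT D l i)ᵀ x y : ℝ) : ℂ) * wF D l y k = ZMod.stdAddChar (-k i) * wF D l x k := by
  rw [Finset.sum_eq_single (x - unitv i)]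
  · rw [Matrix.transpose_apply, sT, if_pos (by rw [sub_add_cancel]), Complex.ofReal_one, one_mul,
      wF, wF, ← AddChar.map_add_eq_mul]
    congr 1
    have : ∀ j, k j * (x - unitv i : Fin D → ZMod l) j = k j * x j + if j = i then -k i else 0 := by
      intro j
      rw [Pi.sub_apply, mul_sub, sub_eq_add_neg]
      congr 1
      by_cases h : j = i
      · subst h
        simp [unitv]
      · simp [unitv, h]
    rw [Finset.sum_congr rfl fun j _ => this j, Finset.sum_add_distrib, Finset.sum_ite_eq',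
      if_pos (Finset.mem_univ i), add_comm]
  · intro y _ hy
    rw [Matrix.transpose_apply, sT, if_neg, Complex.ofReal_zero, zero_mul]
    intro h
    exact hy (by rw [h, add_sub_cancel_right])
  · intro h
    exact absurd (Finset.mem_univ _) h

/-- the complexification of the scalar Laplacian -/
theorem lap_wF : (Complex.ofRealHom.mapMatrix (sH D l (2 * D) (-1))) * wF D l =
    wF D l * diagonal fun k => ((om2 D l k : ℝ) : ℂ) := by
  ext x k
  rw [Matrix.mul_apply, Matrix.mul_diagonal]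
  have h1 : ∀ y, (Complex.ofRealHom.mapMatrix (sH D l (2 * D) (-1))) x y * wF D l y k =
      (2 * D : ℂ) * (if x = y then wF D l y k else 0) -
      ∑ i, (((sT D l i x y : ℝ) : ℂ) * wF D l y k + (((sT D l i)ᵀ x y : ℝ) : ℂ) * wF D l y k) := by
    intro y
    show ((sH D l (2 * D) (-1) x y : ℝ) : ℂ) * wF D l y k = _
    rw [sH_apply]
    push_cast
    rw [add_mul, Finset.sum_mul, sub_eq_add_neg, ← Finset.sum_neg_distrib]
    congr 1
    · split_ifs <;> simp
    · refine Finset.sum_congr rfl fun i _ => ?_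
      ring
  rw [Finset.sum_congr rfl fun y _ => h1 y, Finset.sum_sub_distrib, ← Finset.mul_sum,
    Finset.sum_ite_eq, if_pos (Finset.mem_univ x), Finset.sum_comm]
  have h2 : ∀ i, ∑ y, (((sT D l i x y : ℝ) : ℂ) * wF D l y k +
      (((sT D l i)ᵀ x y : ℝ) : ℂ) * wF D l y k) =
      ((ZMod.stdAddChar (k i) : ℂ) + ZMod.stdAddChar (-k i)) * wF D l x k := by
    intro i
    rw [Finset.sum_add_distrib, sT_map, sT_map', add_mul]
  rw [Finset.sum_congr rfl fun i _ => h2 i, om2]
  have h3 : ((∑ i, 4 * Real.sin (Real.pi * ((k i).val : ℝ) / l) ^ 2 : ℝ) : ℂ) =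
      ∑ i : Fin D, ((2 : ℂ) - ((ZMod.stdAddChar (k i) : ℂ) + ZMod.stdAddChar (-k i))) := by
    rw [Complex.ofReal_sum]
    exact Finset.sum_congr rfl fun i _ => (char_sum (k i)).symm
  rw [h3, Finset.sum_sub_distrib, Finset.sum_const, Finset.card_univ, Fintype.card_fin,
    ← Finset.sum_mul, nsmul_eq_mul]
  ring

/-- traces of the powers of the scalar Laplacian -/
theorem trace_lap_pow (m : ℕ) :
    trace ((sH D l (2 * D) (-1)) ^ m) = ∑ k, om2 D l k ^ m := by
  obtain ⟨C, hC⟩ : ∃ C, C = Complex.ofRealHom.mapMatrix (sH D l (2 * D) (-1)) := ⟨_, rfl⟩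
  obtain ⟨E, hE⟩ : ∃ E : Matrix (Fin D → ZMod l) (Fin D → ZMod l) ℂ,
    E = diagonal fun k => ((om2 D l k : ℝ) : ℂ) := ⟨_, rfl⟩
  have h1 : C * wF D l = wF D l * E := by rw [hC, hE]; exact lap_wF
  have h2 : ∀ m : ℕ, C ^ m * wF D l = wF D l * E ^ m := by
    intro m
    induction m with
    | zero => rw [pow_zero, pow_zero, one_mul, mul_one]
    | succ m ih => rw [pow_succ, mul_assoc, h1, ← mul_assoc, ih, mul_assoc, ← pow_succ]
  have h3 : trace (C ^ m) = trace (E ^ m) := by
    calc trace (C ^ m) = trace (C ^ m * (wF D l * wG D l)) := by rw [wF_wG, mul_one]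
      _ = trace (wF D l * E ^ m * wG D l) := by rw [← mul_assoc, h2]
      _ = trace (wG D l * (wF D l * E ^ m)) := Matrix.trace_mul_comm _ _
      _ = trace (E ^ m) := by rw [← mul_assoc, wG_wF, one_mul]
  have h4 : trace (C ^ m) = ((trace ((sH D l (2 * D) (-1)) ^ m) : ℝ) : ℂ) := by
    rw [hC, ← map_pow, Matrix.trace, Matrix.trace, Complex.ofReal_sum]
    rfl
  have h5 : trace (E ^ m) = ((∑ k, om2 D l k ^ m : ℝ) : ℂ) := by
    rw [hE, Matrix.diagonal_pow, Matrix.trace_diagonal, Complex.ofReal_sum]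
    refine Finset.sum_congr rfl fun k _ => ?_
    rw [Pi.pow_apply, Complex.ofReal_pow]
  have h6 := h4.symm.trans (h3.trans h5)
  exact_mod_cast h6

theorem lapU_cH (B : LieBasis G n) (U : Link D l → G) : lapU B U = cH B U (2 * D) (-1) := by
  rw [lapU_eq, cH]
  have e1 : ∀ i : Fin D,
      (2 • (1 : Matrix ((Fin D → ZMod l) × Fin n) ((Fin D → ZMod l) × Fin n) ℝ) -
      cov B U i - (cov B U i)ᵀ) = 2 • (1 : Matrix ((Fin D → ZMod l) × Fin n)
        ((Fin D → ZMod l) × Fin n) ℝ) - (cov B U i + (cov B U i)ᵀ) := fun i => by abel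
  rw [Finset.sum_congr rfl fun i _ => e1 i, Finset.sum_sub_distrib, Finset.sum_const,
    Finset.card_univ, Fintype.card_fin, neg_smul, one_smul, ← sub_eq_add_neg]
  congr 1
  rw [← Nat.cast_smul_eq_nsmul ℝ, ← Nat.cast_smul_eq_nsmul ℝ, smul_smul]
  congr 1
  push_cast; ring

theorem lapU_herm (B : LieBasis G n) (U : Link D l → G) : (lapU B U).IsHermitian := by
  rw [Matrix.IsHermitian, Matrix.conjTranspose_eq_transpose_of_trivial, lapU_symm]

theorem tsq_lapU_one (B : LieBasis G n) :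
    tsq (lapU B (fun _ : Link D l => (1 : G))) = n * ∑ k, Real.sqrt (om2 D l k) := by
  refine tsq_moments (lapU_herm B _) (om2 D l) n fun k _ => ?_
  rw [lapU_cH, trace_one_pow, ← trace_lap_pow, Matrix.trace, ← Finset.sum_mul, mul_comm]
  rfl

theorem t_EZ (h1 : S_HODGE) (_ : S_TRP) : S_EZ := by
  intro N n D l _ G hG B
  rw [h1 N n D l G hG B _ magnetic_one, tsq_lapU_one, ezero]
  simp only [om2]
  ring

theorem lapU_psd (B : LieBasis G n) (U : Link D l → G) : (lapU B U).PosSemidef := by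
  rw [lapU]
  refine Matrix.posSemidef_sum _ fun i _ => ?_
  rw [← Matrix.conjTranspose_eq_transpose_of_trivial]
  exact Matrix.posSemidef_conjTranspose_mul_self _

theorem lapU_psd' (B : LieBasis G n) (U : Link D l → G) :
    ((4 * D : ℝ) • (1 : Matrix ((Fin D → ZMod l) × Fin n) ((Fin D → ZMod l) × Fin n) ℝ) -
      lapU B U).PosSemidef := by
  have h1 : (4 * D : ℝ) • (1 : Matrix ((Fin D → ZMod l) × Fin n) ((Fin D → ZMod l) × Fin n) ℝ) -
      lapU B U = ∑ i : Fin D, (cov B U i + 1)ᵀ * (cov B U i + 1) := by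
    have h2 : ∀ i : Fin D, (cov B U i + 1)ᵀ * (cov B U i + 1) =
        4 • (1 : Matrix ((Fin D → ZMod l) × Fin n) ((Fin D → ZMod l) × Fin n) ℝ) -
        (2 • (1 : Matrix ((Fin D → ZMod l) × Fin n) ((Fin D → ZMod l) × Fin n) ℝ) -
        cov B U i - (cov B U i)ᵀ) := by
      intro i
      rw [Matrix.transpose_add, Matrix.transpose_one]
      have : ((cov B U i)ᵀ + 1) * (cov B U i + 1) =
        (cov B U i)ᵀ * cov B U i + cov B U i + (cov B U i)ᵀ + 1 := by noncomm_ring
      rw [this, cov_orth']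
      abel
    rw [Finset.sum_congr rfl fun i _ => h2 i, Finset.sum_sub_distrib, ← lapU_eq,
      Finset.sum_const, Finset.card_univ, Fintype.card_fin]
    congr 1
    rw [← Nat.cast_smul_eq_nsmul ℝ, ← Nat.cast_smul_eq_nsmul ℝ, smul_smul]
    congr 1
    push_cast; ring
  rw [h1]
  refine Matrix.posSemidef_sum _ fun i _ => ?_
  rw [← Matrix.conjTranspose_eq_transpose_of_trivial]
  exact Matrix.posSemidef_conjTranspose_mul_self _

theorem t_FLATS (h1 : S_HODGE) (h2 : S_WALK) (h3 : S_SQT) : S_FLATS := by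
  intro N n D l _ G hG hD B U hU hw
  have hD1 : 1 ≤ D := by omega
  have hD' : (2 : ℝ) ≤ D := by exact_mod_cast hD
  rw [h1 N n D l G hG B _ magnetic_one, h1 N n D l G hG B U hU]
  obtain ⟨w1, w2⟩ := h2 N n D l G hG hD1 B U
  have h4 := (h3 ((Fin D → ZMod l) × Fin n) (lapU B U) (lapU B (fun _ : Link D l => (1 : G)))
    (4 * D) (by linarith) (lapU_psd B U) (lapU_psd B _) (lapU_psd' B U) (lapU_psd' B _) w1).2
    ⟨l, w2 hw⟩
  exact mul_lt_mul_of_pos_left h4 (by linarith)

end

end Pool.Agent.Q2.LU
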