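import Pool.Agent.Q2.LU.Adj

/-!
# The diamagnetic inequality for closed walks

`t_WALK`: traces of powers of the covariant hopping matrix are at most those of the free one.
-/

set_option autoImplicit false

namespace Pool.Agent.Q2.LU

open Matrix Pool.Agent.Q77.LU
open scoped Matrix.Norms.Frobenius

noncomputable section

variable {N n : ℕ} {G : Subgroup (UU N)}

/-- combinations of adjoint matrices with nonnegative coefficients of sum `c` -/
inductive KK (B : LieBasis G n) : ℝ → Matrix (Fin n) (Fin n) ℝ → Prop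
  | zero : KK B 0 0
  | add (c c' : ℝ) (M M' : Matrix (Fin n) (Fin n) ℝ) : KK B c M → KK B c' M' →
      KK B (c + c') (M + M')
  | ad (c : ℝ) (g : G) : 0 ≤ c → KK B c (c • AdM B g)

variable {B : LieBasis G n}

theorem KK.nonneg {c : ℝ} {M : Matrix (Fin n) (Fin n) ℝ} (h : KK B c M) : 0 ≤ c := by
  induction h with
  | zero => exact le_rfl
  | add c c' M M' _ _ h1 h2 => exact add_nonneg h1 h2
  | ad c g hc => exact hc

theorem KK.trace_le {c : ℝ} {M : Matrix (Fin n) (Fin n) ℝ} (h : KK B c M) :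
    trace M ≤ c * n := by
  induction h with
  | zero => simp
  | add c c' M M' _ _ h1 h2 => rw [Matrix.trace_add]; linarith
  | ad c g hc =>
    rw [Matrix.trace_smul, smul_eq_mul]
    exact mul_le_mul_of_nonneg_left (Pool.Agent.Q2.LU.trace_le (AdM_orth B g)) hc

theorem KK.ad_mul {c : ℝ} {M : Matrix (Fin n) (Fin n) ℝ} (h : KK B c M) (d : ℝ) (g : G)
    (hd : 0 ≤ d) : KK B (d * c) ((d • AdM B g) * M) := by
  induction h with
  | zero => rw [mul_zero, Matrix.mul_zero]; exact KK.zero
  | add c c' M M' _ _ h1 h2 => rw [mul_add, Matrix.mul_add]; exact KK.add _ _ _ _ h1 h2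
  | ad c k hc =>
    rw [Matrix.smul_mul, Matrix.mul_smul, smul_smul, ← AdM_mul]
    exact KK.ad _ _ (mul_nonneg hd hc)

theorem KK.mul {c d : ℝ} {M M' : Matrix (Fin n) (Fin n) ℝ} (h : KK B c M) (h' : KK B d M') :
    KK B (c * d) (M * M') := by
  induction h with
  | zero => rw [zero_mul, Matrix.zero_mul]; exact KK.zero
  | add c c' M M' _ _ h1 h2 => rw [add_mul, Matrix.add_mul]; exact KK.add _ _ _ _ h1 h2
  | ad c k hc => exact h'.ad_mul c k hc

theorem KK.sum {ι : Type} (s : Finset ι) (c : ι → ℝ) (M : ι → Matrix (Fin n) (Fin n) ℝ)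
    (h : ∀ i ∈ s, KK B (c i) (M i)) : KK B (∑ i ∈ s, c i) (∑ i ∈ s, M i) := by
  classical
  induction s using Finset.induction_on with
  | empty => rw [Finset.sum_empty, Finset.sum_empty]; exact KK.zero
  | insert i s hi ih =>
    rw [Finset.sum_insert hi, Finset.sum_insert hi]
    exact KK.add _ _ _ _ (h i (Finset.mem_insert_self i s))
      (ih fun j hj => h j (Finset.mem_insert_of_mem hj))

theorem KK.of_eq {c d : ℝ} {M M' : Matrix (Fin n) (Fin n) ℝ} (h : KK B c M) (h1 : c = d)
    (h2 : M = M') : KK B d M' := by rw [← h1, ← h2]; exact h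

/-- `M - e • Ad g` has nonnegative coefficients -/
def PK (B : LieBasis G n) (c : ℝ) (M : Matrix (Fin n) (Fin n) ℝ) (e : ℝ) (g : G) : Prop :=
  KK B (c - e) (M - e • AdM B g)

theorem PK.mul {c d e f : ℝ} {M M' : Matrix (Fin n) (Fin n) ℝ} {g k : G} (h : PK B c M e g)
    (h' : PK B d M' f k) (he : 0 ≤ e) (hf : 0 ≤ f) : PK B (c * d) (M * M') (e * f) (g * k) := by
  have h1 : KK B d M' := (KK.add _ _ _ _ h' (KK.ad f k hf)).of_eq (by ring) (by abel)
  have h2 := KK.add _ _ _ _ (KK.mul h h1) (KK.ad_mul h' e g he)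
  refine h2.of_eq (by ring) ?_
  have h3 : (e • AdM B g) * (f • AdM B k) = (e * f) • (AdM B g * AdM B k) := by
    rw [Matrix.smul_mul, Matrix.mul_smul, smul_smul]
  rw [AdM_mul, Matrix.sub_mul, Matrix.mul_sub, h3]
  abel

variable {D l : ℕ}

/-- blocks -/
def blk {S : Type} (A : Matrix (S × Fin n) (S × Fin n) ℝ) (x y : S) : Matrix (Fin n) (Fin n) ℝ :=
  fun a b => A (x, a) (y, b)

theorem blk_mul {S : Type} [Fintype S] (A A' : Matrix (S × Fin n) (S × Fin n) ℝ) (x y : S) :
    blk (A * A') x y = ∑ z, blk A x z * blk A' z y := by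
  ext a b
  rw [Matrix.sum_apply]
  show (A * A') (x, a) (y, b) = _
  rw [Matrix.mul_apply, Fintype.sum_prod_type]
  rfl

theorem blk_one {S : Type} [Fintype S] [DecidableEq S] (x y : S) :
    blk (n := n) (1 : Matrix (S × Fin n) (S × Fin n) ℝ) x y = if x = y then 1 else 0 := by
  ext a b
  show (1 : Matrix (S × Fin n) (S × Fin n) ℝ) (x, a) (y, b) = _
  by_cases h : x = y
  · subst h
    rw [if_pos rfl, Matrix.one_apply, Matrix.one_apply]
    simp
  · rw [if_neg h, Matrix.one_apply_ne (fun h' => h (Prod.ext_iff.mp h').1), Matrix.zero_apply]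

theorem trace_blk {S : Type} [Fintype S] (A : Matrix (S × Fin n) (S × Fin n) ℝ) :
    trace A = ∑ x, trace (blk A x x) := by
  rw [Matrix.trace, Fintype.sum_prod_type]
  rfl

theorem blk_pow {S : Type} [Fintype S] [DecidableEq S] {A : Matrix (S × Fin n) (S × Fin n) ℝ}
    {h : Matrix S S ℝ} (hA : ∀ x y, KK B (h x y) (blk A x y)) (k : ℕ) (x y : S) :
    KK B ((h ^ k) x y) (blk (A ^ k) x y) := by
  induction k generalizing y with
  | zero =>
    rw [pow_zero, pow_zero, blk_one, Matrix.one_apply]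
    split_ifs with hxy
    · exact (KK.ad 1 1 zero_le_one).of_eq rfl (by rw [AdM_one, one_smul])
    · exact KK.zero
  | succ k ih =>
    rw [pow_succ, pow_succ, blk_mul, Matrix.mul_apply]
    exact KK.sum _ _ _ fun z _ => (ih z).mul (hA z y)

/-- scalar translation -/
def sT (D l : ℕ) (i : Fin D) : Matrix (Fin D → ZMod l) (Fin D → ZMod l) ℝ :=
  fun x y => if y = x + unitv i then 1 else 0

variable [NeZero l]

/-- scalar hopping matrix -/
def sH (D l : ℕ) [NeZero l] (α β : ℝ) : Matrix (Fin D → ZMod l) (Fin D → ZMod l) ℝ :=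
  α • 1 + β • ∑ i, (sT D l i + (sT D l i)ᵀ)

/-- covariant hopping matrix -/
def cH (B : LieBasis G n) (U : Link D l → G) (α β : ℝ) :
    Matrix ((Fin D → ZMod l) × Fin n) ((Fin D → ZMod l) × Fin n) ℝ :=
  α • 1 + β • ∑ i, (cov B U i + (cov B U i)ᵀ)

omit [NeZero l] in
theorem blk_cov (B : LieBasis G n) (U : Link D l → G) (i : Fin D) (x y : Fin D → ZMod l) :
    blk (cov B U i) x y = sT D l i x y • AdM B (U (x, i)) := by
  ext a b
  show cov B U i (x, a) (y, b) = _
  rw [cov_apply, Matrix.smul_apply, sT]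
  split_ifs <;> simp

omit [NeZero l] in
theorem blk_cov_tr (B : LieBasis G n) (U : Link D l → G) (i : Fin D) (x y : Fin D → ZMod l) :
    blk (cov B U i)ᵀ x y = (sT D l i)ᵀ x y • AdM B (U (y, i))⁻¹ := by
  ext a b
  show cov B U i (y, b) (x, a) = _
  rw [cov_apply, Matrix.smul_apply, Matrix.transpose_apply, sT, ← AdM_transpose,
    Matrix.transpose_apply]
  split_ifs <;> simp

theorem blk_cH (B : LieBasis G n) (U : Link D l → G) (α β : ℝ) (x y : Fin D → ZMod l) :
    blk (cH B U α β) x y = α • (if x = y then 1 else 0) +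
      ∑ i, ((β * sT D l i x y) • AdM B (U (x, i)) +
        (β * (sT D l i)ᵀ x y) • AdM B (U (y, i))⁻¹) := by
  have h1 : ∀ i, (β * sT D l i x y) • AdM B (U (x, i)) +
      (β * (sT D l i)ᵀ x y) • AdM B (U (y, i))⁻¹ =
      β • (blk (cov B U i) x y + blk (cov B U i)ᵀ x y) := by
    intro i
    rw [blk_cov, blk_cov_tr, smul_add, smul_smul, smul_smul]
  rw [Finset.sum_congr rfl fun i _ => h1 i, ← Finset.smul_sum, ← blk_one]
  ext a b
  show (cH B U α β) (x, a) (y, b) = _
  rw [cH, Matrix.add_apply, Matrix.smul_apply, Matrix.smul_apply, Matrix.sum_apply,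
    Matrix.add_apply, Matrix.smul_apply, Matrix.smul_apply, Matrix.sum_apply]
  rfl

theorem sH_apply (α β : ℝ) (x y : Fin D → ZMod l) :
    sH D l α β x y = α * (if x = y then 1 else 0) +
      ∑ i, (β * sT D l i x y + β * (sT D l i)ᵀ x y) := by
  rw [sH, Matrix.add_apply, Matrix.smul_apply, Matrix.smul_apply, Matrix.sum_apply,
    Matrix.one_apply, smul_eq_mul, smul_eq_mul, Finset.mul_sum]
  congr 1
  refine Finset.sum_congr rfl fun i _ => ?_
  rw [Matrix.add_apply, mul_add]

omit [NeZero l] in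
theorem sT_nonneg (i : Fin D) (x y : Fin D → ZMod l) : 0 ≤ sT D l i x y := by
  rw [sT]; split_ifs
  · exact zero_le_one
  · exact le_rfl

omit [NeZero l] in
theorem KK_diag (α : ℝ) (hα : 0 ≤ α) (x y : Fin D → ZMod l) :
    KK B (α * (if x = y then 1 else 0)) (α • (if x = y then 1 else 0)) := by
  split_ifs
  · exact (KK.ad α 1 hα).of_eq (by rw [mul_one]) (by rw [AdM_one])
  · exact KK.zero.of_eq (by rw [mul_zero]) (by rw [smul_zero])

theorem KK_cH (U : Link D l → G) {α β : ℝ} (hα : 0 ≤ α) (hβ : 0 ≤ β)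
    (x y : Fin D → ZMod l) : KK B (sH D l α β x y) (blk (cH B U α β) x y) := by
  rw [sH_apply, blk_cH]
  refine KK.add _ _ _ _ (KK_diag α hα x y) (KK.sum _ _ _ fun i _ => KK.add _ _ _ _ ?_ ?_)
  · exact KK.ad _ _ (mul_nonneg hβ (sT_nonneg i x y))
  · exact KK.ad _ _ (mul_nonneg hβ (sT_nonneg i y x))

/-- one step in the direction `i` -/
theorem PK_cH (U : Link D l → G) {α β : ℝ} (hα : 0 ≤ α) (hβ : 0 ≤ β)
    (x : Fin D → ZMod l) (i : Fin D) :
    PK B (sH D l α β x (x + unitv i)) (blk (cH B U α β) x (x + unitv i)) β (U (x, i)) := by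
  have hone : sT D l i x (x + unitv i) = 1 := by rw [sT, if_pos rfl]
  have h2 : KK B (∑ j, ((if j = i then 0 else β * sT D l j x (x + unitv i)) +
      β * (sT D l j)ᵀ x (x + unitv i)))
      (∑ j, ((if j = i then 0 else β * sT D l j x (x + unitv i)) • AdM B (U (x, j)) +
        (β * (sT D l j)ᵀ x (x + unitv i)) • AdM B (U (x + unitv i, j))⁻¹)) := by
    refine KK.sum _ _ _ fun j _ => KK.add _ _ _ _ (KK.ad _ _ ?_) (KK.ad _ _ ?_)
    · split_ifs
      · exact le_rfl
      · exact mul_nonneg hβ (sT_nonneg j x _)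
    · exact mul_nonneg hβ (sT_nonneg j _ x)
  have h3 := KK.add _ _ _ _ (KK_diag (B := B) α hα x (x + unitv i)) h2
  have h4 : ∀ j, β * sT D l j x (x + unitv i) =
      (if j = i then 0 else β * sT D l j x (x + unitv i)) + if j = i then β else 0 := by
    intro j
    split_ifs with hj
    · rw [hj, hone]; ring
    · ring
  rw [PK]
  refine h3.of_eq ?_ ?_
  · rw [sH_apply]
    have : ∑ j, (β * sT D l j x (x + unitv i) + β * (sT D l j)ᵀ x (x + unitv i)) =
        ∑ j, ((if j = i then 0 else β * sT D l j x (x + unitv i)) +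
          β * (sT D l j)ᵀ x (x + unitv i)) + β := by
      have e : (∑ j : Fin D, if j = i then β else 0) = β := by
        rw [Finset.sum_ite_eq' Finset.univ i, if_pos (Finset.mem_univ i)]
      have e1 : ∀ j, β * sT D l j x (x + unitv i) + β * (sT D l j)ᵀ x (x + unitv i) =
          ((if j = i then 0 else β * sT D l j x (x + unitv i)) +
          β * (sT D l j)ᵀ x (x + unitv i)) + if j = i then β else 0 := by
        intro j
        have := h4 j
        split_ifs at this ⊢ <;> linarith
      rw [Finset.sum_congr rfl fun j _ => e1 j, Finset.sum_add_distrib, e]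
    rw [this]; ring
  · rw [blk_cH]
    have : ∑ j, ((β * sT D l j x (x + unitv i)) • AdM B (U (x, j)) +
          (β * (sT D l j)ᵀ x (x + unitv i)) • AdM B (U (x + unitv i, j))⁻¹) =
        ∑ j, ((if j = i then 0 else β * sT D l j x (x + unitv i)) • AdM B (U (x, j)) +
          (β * (sT D l j)ᵀ x (x + unitv i)) • AdM B (U (x + unitv i, j))⁻¹) +
          β • AdM B (U (x, i)) := by
      have e : β • AdM B (U (x, i)) =
          ∑ j : Fin D, if j = i then β • AdM B (U (x, j)) else 0 := by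
        rw [Finset.sum_ite_eq' Finset.univ i, if_pos (Finset.mem_univ i)]
      rw [e, ← Finset.sum_add_distrib]
      refine Finset.sum_congr rfl fun j _ => ?_
      by_cases hj : j = i
      · rw [if_pos hj, if_pos hj, hj, hone]
        simp [add_comm]
      · rw [if_neg hj, if_neg hj, add_zero]
    rw [this]; abel

/-- products of links in one direction -/
def pw (U : Link D l → G) (x : Fin D → ZMod l) (i : Fin D) (k : ℕ) : G :=
  (List.ofFn fun s : Fin k => U (x + (s : ℕ) • unitv i, i)).prod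

omit [NeZero l] in
theorem pw_succ (U : Link D l → G) (x : Fin D → ZMod l) (i : Fin D) (k : ℕ) :
    pw U x i (k + 1) = pw U x i k * U (x + k • unitv i, i) := by
  rw [pw, List.ofFn_succ', List.concat_eq_append, List.prod_append, List.prod_singleton]
  rfl

theorem PK_pow (U : Link D l → G) {α β : ℝ} (hα : 0 ≤ α) (hβ : 0 ≤ β)
    (x : Fin D → ZMod l) (i : Fin D) (k : ℕ) :
    PK B ((sH D l α β ^ k) x (x + k • unitv i)) (blk (cH B U α β ^ k) x (x + k • unitv i))
      (β ^ k) (pw U x i k) := by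
  induction k with
  | zero =>
    have h1 : pw U x i 0 = 1 := by rw [pw]; simp
    rw [PK, h1, pow_zero, pow_zero, pow_zero, zero_smul, add_zero, blk_one, if_pos rfl,
      Matrix.one_apply_eq, AdM_one, one_smul, sub_self, sub_self]
    exact KK.zero
  | succ k ih =>
    have h1 := ih.mul (PK_cH U hα hβ (x + k • unitv i) i) (pow_nonneg hβ k) hβ
    have e : x + k • unitv i + unitv i = x + (k + 1) • unitv i := by
      rw [add_assoc, succ_nsmul]
    rw [e, ← pw_succ, ← pow_succ] at h1
    rw [pow_succ (sH D l α β), pow_succ (cH B U α β), Matrix.mul_apply, blk_mul,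
      ← Finset.add_sum_erase _ _ (Finset.mem_univ (x + k • unitv i)),
      ← Finset.add_sum_erase _ (fun z => blk (cH B U α β ^ k) x z *
        blk (cH B U α β) z (x + (k + 1) • unitv i)) (Finset.mem_univ (x + k • unitv i))]
    have h2 : KK B (∑ z ∈ Finset.univ.erase (x + k • unitv i), (sH D l α β ^ k) x z *
        sH D l α β z (x + (k + 1) • unitv i))
        (∑ z ∈ Finset.univ.erase (x + k • unitv i), blk (cH B U α β ^ k) x z *
        blk (cH B U α β) z (x + (k + 1) • unitv i)) :=
      KK.sum _ _ _ fun z _ => (blk_pow (KK_cH U hα hβ) k x z).mul (KK_cH U hα hβ z _)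
    exact (KK.add _ _ _ _ h1 h2).of_eq (by ring) (by abel)

theorem lap_cH (hD : 1 ≤ D) (B : LieBasis G n) (U : Link D l → G) :
    1 - (1 / (4 * D : ℝ)) • lapU B U = cH B U (1 / 2) (1 / (4 * D : ℝ)) := by
  have hD' : (D : ℝ) ≠ 0 := by
    have : (1 : ℝ) ≤ D := by exact_mod_cast hD
    linarith
  rw [lapU_eq, cH]
  have h1 : ∑ i : Fin D, (2 • (1 : Matrix ((Fin D → ZMod l) × Fin n) ((Fin D → ZMod l) × Fin n) ℝ) -
      cov B U i - (cov B U i)ᵀ) = (2 * D : ℝ) •
      (1 : Matrix ((Fin D → ZMod l) × Fin n) ((Fin D → ZMod l) × Fin n) ℝ) -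
      ∑ i, (cov B U i + (cov B U i)ᵀ) := by
    have e1 : ∀ i : Fin D,
        (2 • (1 : Matrix ((Fin D → ZMod l) × Fin n) ((Fin D → ZMod l) × Fin n) ℝ) -
        cov B U i - (cov B U i)ᵀ) = 2 • (1 : Matrix ((Fin D → ZMod l) × Fin n)
          ((Fin D → ZMod l) × Fin n) ℝ) - (cov B U i + (cov B U i)ᵀ) := fun i => by abel
    rw [Finset.sum_congr rfl fun i _ => e1 i, Finset.sum_sub_distrib, Finset.sum_const,
      Finset.card_univ, Fintype.card_fin]
    congr 1
    rw [← Nat.cast_smul_eq_nsmul ℝ, ← Nat.cast_smul_eq_nsmul ℝ, smul_smul]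
    congr 1
    push_cast; ring
  rw [h1, smul_sub, smul_smul, ← sub_add]
  congr 1
  have e2 : (1 / (4 * D : ℝ)) * (2 * D) = 1 / 2 := by field_simp; norm_num
  rw [e2]
  rw [sub_eq_iff_eq_add, ← add_smul]
  norm_num

/-- the powers for the trivial configuration -/
theorem blk_one_pow (α β : ℝ) (k : ℕ) (x y : Fin D → ZMod l) :
    blk (cH B (fun _ : Link D l => (1 : G)) α β ^ k) x y = (sH D l α β ^ k) x y • 1 := by
  induction k generalizing y with
  | zero =>
    rw [pow_zero, pow_zero, blk_one, Matrix.one_apply]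
    split_ifs <;> simp
  | succ k ih =>
    rw [pow_succ, pow_succ, blk_mul, Matrix.mul_apply, Finset.sum_smul]
    refine Finset.sum_congr rfl fun z _ => ?_
    have h1 : blk (cH B (fun _ : Link D l => (1 : G)) α β) z y = sH D l α β z y • 1 := by
      rw [blk_cH, sH_apply, add_smul, Finset.sum_smul]
      congr 1
      · split_ifs <;> simp
      · refine Finset.sum_congr rfl fun i _ => ?_
        rw [inv_one, AdM_one, add_smul]
    rw [ih, h1, Matrix.smul_mul, Matrix.mul_smul, smul_smul, Matrix.mul_one]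

theorem trace_one_pow (α β : ℝ) (k : ℕ) :
    trace (cH B (fun _ : Link D l => (1 : G)) α β ^ k) = ∑ x, (sH D l α β ^ k) x x * n := by
  rw [trace_blk]
  refine Finset.sum_congr rfl fun x _ => ?_
  rw [blk_one_pow, Matrix.trace_smul, Matrix.trace_one, Fintype.card_fin, smul_eq_mul]

/-- the diamagnetic inequality -/
theorem t_WALK' : S_WALK := by
  intro N n D l _ G _ hD B U
  have hα : (0 : ℝ) ≤ 1 / 2 := by norm_num
  have hD' : (0 : ℝ) < D := by exact_mod_cast hD
  have hβ : (0 : ℝ) < 1 / (4 * D : ℝ) := by positivity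
  rw [lap_cH hD, lap_cH hD]
  constructor
  · intro k
    rw [trace_one_pow, trace_blk]
    exact Finset.sum_le_sum fun x _ => (blk_pow (KK_cH U hα hβ.le) k x x).trace_le
  · rintro ⟨x, i, a, hw⟩
    rw [trace_one_pow, trace_blk]
    refine Finset.sum_lt_sum
      (fun y _ => (blk_pow (KK_cH U hα hβ.le) l y y).trace_le) ⟨x, Finset.mem_univ x, ?_⟩
    have h1 := PK_pow (B := B) U hα hβ.le x i l
    have hl : x + l • unitv i = x := by
      have : (l • unitv i : Fin D → ZMod l) = 0 := by
        rw [← Nat.cast_smul_eq_nsmul (ZMod l), ZMod.natCast_self, zero_smul]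
      rw [this, add_zero]
    rw [hl] at h1
    have h2 := h1.trace_le
    have h3 : pw U x i l = wind U x i := rfl
    rw [h3, Matrix.trace_sub, Matrix.trace_smul, smul_eq_mul] at h2
    have h4 : trace (AdM B (wind U x i)) < n := by
      refine trace_lt (AdM_orth B _) fun h => hw ?_
      exact AdM_eq_one B _ h a
    have h5 : (1 / (4 * D : ℝ)) ^ l * trace (AdM B (wind U x i)) <
        (1 / (4 * D : ℝ)) ^ l * n := mul_lt_mul_of_pos_left h4 (pow_pos hβ l)
    linarith

theorem t_WALK (_ : S_EXPG) : S_WALK := t_WALK'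

end

end Pool.Agent.Q2.LU
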